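import Mathlib

/-!
The ring `K ⊗ K`, additive maps on it and the step which removes a factor.
-/

set_option autoImplicit false

open scoped TensorProduct

namespace Pool.Agent.HuaBd96

variable {K A : Type} [Field K] [AddCommGroup A]

/-- The additive map on `K ⊗ K` given by a biadditive map. -/
noncomputable def ell (L : K →+ K →+ A) : K ⊗[ℤ] K →+ A :=
  TensorProduct.liftAddHom L (fun r m n => by
    rw [map_zsmul, map_zsmul]
    rfl)

theorem ell_tmul (L : K →+ K →+ A) (a b : K) : ell L (a ⊗ₜ b) = L a b := rfl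

/-- The elements which the map kills together with all their multiples. -/
def Kill {R : Type} [CommRing R] (f : R →+ A) : Ideal R where
  carrier := {x | ∀ y, f (x * y) = 0}
  zero_mem' := by intro y; rw [zero_mul, map_zero]
  add_mem' := by
    intro a b ha hb y
    rw [add_mul, map_add, ha, hb, add_zero]
  smul_mem' := by
    intro c x hx y
    rw [smul_eq_mul, mul_comm c x, mul_assoc]
    exact hx (c * y)

theorem mem_Kill {R : Type} [CommRing R] {f : R →+ A} {x : R} :
    x ∈ Kill f ↔ ∀ y, f (x * y) = 0 := Iff.rfl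

/-- Removing the factor `P`. -/
theorem peel {R : Type} [CommRing R] (f : R →+ A) (B : Subring R) (hB : ∀ x ∈ B, f x = 0)
    {P Q σ σ' : R} (hPQ : Q * P ∈ Kill f) (hσ : σ ∈ B) (hσ' : σ = Q * σ')
    (hsurj : ∀ r : R, ∃ b ∈ B, ∃ w, r = b + P * w)
    (hunit : ∃ u w, σ' * u + P * w = 1) : Q ∈ Kill f := by
  have h1 : σ ∈ Kill f := by
    rw [mem_Kill]
    intro y
    obtain ⟨b, hb, w, rfl⟩ := hsurj y
    have e : σ * (b + P * w) = σ * b + Q * P * (σ' * w) := by
      rw [hσ']; ring
    rw [e, map_add, hB _ (B.mul_mem hσ hb), hPQ, add_zero]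
  obtain ⟨u, w, huw⟩ := hunit
  have e : Q = u * σ + w * (Q * P) := by
    calc Q = Q * (σ' * u + P * w) := by rw [huw, mul_one]
      _ = u * σ + w * (Q * P) := by rw [hσ']; ring
  rw [e]
  exact (Kill f).add_mem ((Kill f).mul_mem_left u h1) ((Kill f).mul_mem_left w hPQ)

/-- The additive span of the elements `v⁻¹ ⊗ v`. -/
def SSa (K : Type) [Field K] : AddSubgroup (K ⊗[ℤ] K) :=
  AddSubgroup.closure {x | ∃ v : K, v ≠ 0 ∧ x = v⁻¹ ⊗ₜ v}

/-- It is a subring. -/
def SS (K : Type) [Field K] : Subring (K ⊗[ℤ] K) where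
  carrier := SSa K
  zero_mem' := (SSa K).zero_mem
  add_mem' := (SSa K).add_mem
  neg_mem' := (SSa K).neg_mem
  one_mem' := AddSubgroup.subset_closure ⟨1, one_ne_zero, by
    rw [inv_one, Algebra.TensorProduct.one_def]⟩
  mul_mem' := by
    intro a b ha hb
    induction ha using AddSubgroup.closure_induction with
    | mem x hx =>
      induction hb using AddSubgroup.closure_induction with
      | mem y hy =>
        obtain ⟨v, hv, rfl⟩ := hx
        obtain ⟨w, hw, rfl⟩ := hy
        apply AddSubgroup.subset_closure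
        refine ⟨v * w, mul_ne_zero hv hw, ?_⟩
        rw [Algebra.TensorProduct.tmul_mul_tmul, mul_inv]
      | zero => rw [mul_zero]; exact (SSa K).zero_mem
      | add y z _ _ hy hz => rw [mul_add]; exact (SSa K).add_mem hy hz
      | neg y _ hy =>
        have e : x * -y = -(x * y) := mul_neg x y
        rw [e]; exact (SSa K).neg_mem hy
    | zero => rw [zero_mul]; exact (SSa K).zero_mem
    | add y z _ _ hy hz => rw [add_mul]; exact (SSa K).add_mem hy hz
    | neg y _ hy =>
      have e : -y * b = -(y * b) := neg_mul y b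
      rw [e]; exact (SSa K).neg_mem hy

theorem mem_SS {v : K} (hv : v ≠ 0) : v⁻¹ ⊗ₜ v ∈ SS K :=
  AddSubgroup.subset_closure ⟨v, hv, rfl⟩

theorem ell_SS (L : K →+ K →+ A) (hE : ∀ v : K, v ≠ 0 → L v⁻¹ v = 0) :
    ∀ x ∈ SS K, ell L x = 0 := by
  intro x hx
  induction hx using AddSubgroup.closure_induction with
  | mem x hx =>
    obtain ⟨v, hv, rfl⟩ := hx
    rw [ell_tmul]
    exact hE v hv
  | zero => exact map_zero _
  | add y z _ _ hy hz => rw [map_add, hy, hz, add_zero]
  | neg y _ hy => rw [map_neg, hy, neg_zero]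

end Pool.Agent.HuaBd96
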