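import Mathlib
import Pool.Agent.HuaBd96.Ring

/-!
Residue maps of the ring `K ⊗ K` for a field `K` generated by one element.
-/

set_option autoImplicit false

open scoped TensorProduct

namespace Pool.Agent.HuaBd96

variable {K : Type} [Field K]

/-- `K` is generated by `s` as a field. -/
def GenBy (s : K) : Prop := ∀ F : Subfield K, s ∈ F → F = ⊤

theorem hom_ext_of_gen {s : K} (hs : GenBy s) {Q : Type} [CommRing Q] (f g : K →+* Q)
    (h : f s = g s) (a : K) : f a = g a := by
  let F : Subfield K :=
    { carrier := {a | f a = g a}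
      mul_mem' := fun {a b} ha hb => by
        change f (a * b) = g (a * b)
        rw [map_mul, map_mul, show f a = g a from ha, show f b = g b from hb]
      one_mem' := by change f 1 = g 1; rw [map_one, map_one]
      add_mem' := fun {a b} ha hb => by
        change f (a + b) = g (a + b)
        rw [map_add, map_add, show f a = g a from ha, show f b = g b from hb]
      zero_mem' := by change f 0 = g 0; rw [map_zero, map_zero]
      neg_mem' := fun {a} ha => by
        change f (-a) = g (-a)
        rw [map_neg, map_neg, show f a = g a from ha]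
      inv_mem' := fun a ha => by
        change f a⁻¹ = g a⁻¹
        have ha' : f a = g a := ha
        by_cases h0 : a = 0
        · subst h0; rw [inv_zero, map_zero, map_zero]
        have h1 : f a⁻¹ * f a = 1 := by rw [← map_mul, inv_mul_cancel₀ h0, map_one]
        have h2 : g a * g a⁻¹ = 1 := by rw [← map_mul, mul_inv_cancel₀ h0, map_one]
        calc f a⁻¹ = f a⁻¹ * (g a * g a⁻¹) := by rw [h2, mul_one]
          _ = (f a⁻¹ * f a) * g a⁻¹ := by rw [← ha']; ring
          _ = g a⁻¹ := by rw [h1, one_mul] }
  have h1 : F = ⊤ := hs F h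
  have h2 : a ∈ F := by rw [h1]; trivial
  exact h2

/-- The inclusion on the left. -/
noncomputable def li : K →+* K ⊗[ℤ] K := Algebra.TensorProduct.includeLeftRingHom

/-- The inclusion on the right. -/
noncomputable def ri : K →+* K ⊗[ℤ] K :=
  (Algebra.TensorProduct.includeRight : K →ₐ[ℤ] K ⊗[ℤ] K).toRingHom

theorem li_apply (a : K) : li a = a ⊗ₜ[ℤ] (1 : K) := rfl

theorem ri_apply (a : K) : ri a = (1 : K) ⊗ₜ[ℤ] a := rfl

theorem li_mul_ri (a b : K) : li a * ri b = a ⊗ₜ[ℤ] b := by
  rw [li_apply, ri_apply, Algebra.TensorProduct.tmul_mul_tmul, mul_one, one_mul]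

/-- The map `a ⊗ b ↦ α a * β b`. -/
noncomputable def rh (α β : K →+* K) : K ⊗[ℤ] K →+* K :=
  (Algebra.TensorProduct.productMap α.toIntAlgHom β.toIntAlgHom).toRingHom

theorem rh_tmul (α β : K →+* K) (a b : K) : rh α β (a ⊗ₜ b) = α a * β b := by
  unfold rh
  exact Algebra.TensorProduct.productMap_apply_tmul _ _ a b

theorem rh_li (α β : K →+* K) (a : K) : rh α β (li a) = α a := by
  rw [li_apply, rh_tmul, map_one, mul_one]

theorem rh_ri (α β : K →+* K) (a : K) : rh α β (ri a) = β a := by
  rw [ri_apply, rh_tmul, map_one, one_mul]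

/-- Congruences modulo an ideal. -/
theorem cong_hom {s : K} (hs : GenBy s) (J : Ideal (K ⊗[ℤ] K)) (f g : K →+* K ⊗[ℤ] K)
    (h : f s - g s ∈ J) (a : K) : f a - g a ∈ J := by
  have h1 := hom_ext_of_gen (Q := (K ⊗[ℤ] K) ⧸ J) hs ((Ideal.Quotient.mk J).comp f)
    ((Ideal.Quotient.mk J).comp g) (by
      rw [RingHom.comp_apply, RingHom.comp_apply, ← sub_eq_zero, ← map_sub]
      exact Ideal.Quotient.eq_zero_iff_mem.mpr h) a
  rw [RingHom.comp_apply, RingHom.comp_apply, ← sub_eq_zero, ← map_sub] at h1
  exact Ideal.Quotient.eq_zero_iff_mem.mp h1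

theorem red_left {s : K} (hs : GenBy s) (J : Ideal (K ⊗[ℤ] K)) (α : K →+* K)
    (h : li s - ri (α s) ∈ J) (x : K ⊗[ℤ] K) : x - ri (rh α (RingHom.id K) x) ∈ J := by
  induction x using TensorProduct.induction_on with
  | zero => rw [map_zero, map_zero, sub_zero]; exact J.zero_mem
  | tmul a b =>
    rw [rh_tmul, ← li_mul_ri, RingHom.id_apply, map_mul]
    have h1 := cong_hom hs J li (ri.comp α) h a
    rw [RingHom.comp_apply] at h1
    have e : li a * ri b - ri (α a) * ri b = ri b * (li a - ri (α a)) := by ring
    rw [e]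
    exact J.mul_mem_left _ h1
  | add x y hx hy =>
    rw [map_add, map_add]
    have e : x + y - (ri (rh α (RingHom.id K) x) + ri (rh α (RingHom.id K) y)) =
        (x - ri (rh α (RingHom.id K) x)) + (y - ri (rh α (RingHom.id K) y)) := by ring
    rw [e]
    exact J.add_mem hx hy

theorem red_right {s : K} (hs : GenBy s) (J : Ideal (K ⊗[ℤ] K)) (β : K →+* K)
    (h : ri s - li (β s) ∈ J) (x : K ⊗[ℤ] K) : x - li (rh (RingHom.id K) β x) ∈ J := by
  induction x using TensorProduct.induction_on with
  | zero => rw [map_zero, map_zero, sub_zero]; exact J.zero_mem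
  | tmul a b =>
    rw [rh_tmul, ← li_mul_ri, RingHom.id_apply, map_mul]
    have h1 := cong_hom hs J ri (li.comp β) h b
    rw [RingHom.comp_apply] at h1
    have e : li a * ri b - li a * li (β b) = li a * (ri b - li (β b)) := by ring
    rw [e]
    exact J.mul_mem_left _ h1
  | add x y hx hy =>
    rw [map_add, map_add]
    have e : x + y - (li (rh (RingHom.id K) β x) + li (rh (RingHom.id K) β y)) =
        (x - li (rh (RingHom.id K) β x)) + (y - li (rh (RingHom.id K) β y)) := by ring
    rw [e]
    exact J.add_mem hx hy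

/-- The ring `K ⊗ K` has characteristic two. -/
instance charP_tensor [CharP K 2] : CharP (K ⊗[ℤ] K) 2 := by
  have hinj : Function.Injective (li : K →+* K ⊗[ℤ] K) := by
    intro a b hab
    have := congrArg (rh (RingHom.id K) (RingHom.id K)) hab
    rwa [rh_li, rh_li] at this
  exact charP_of_injective_ringHom hinj 2

end Pool.Agent.HuaBd96
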