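import Mathlib
import Pool.Agent.HuaBd45.Crt
import Pool.Agent.HuaBd96.Red

/-!
Biadditive maps on a field generated by one element, characteristic two: balancedness over the
squares.
-/

set_option autoImplicit false

open scoped TensorProduct
open Finset

namespace Pool.Agent.HuaBd96

open Pool.Agent.HuaBd45

variable {K : Type} [Field K] [CharP K 2]

/-- The residue maps of `K ⊗ K`. -/
noncomputable def res {s : K} (hs : GenBy s) : Res (li : K →+* K ⊗[ℤ] K) ri s where
  ρ := fun j => rh (iterateFrobenius K 2 j) (RingHom.id K)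
  hα := fun j a => by rw [rh_li, iterateFrobenius_def]
  hβ := fun j b => by rw [rh_ri, RingHom.id_apply]
  ker := fun j r hr => by
    have h := red_left hs (Ideal.span {li s - ri s ^ 2 ^ j}) (iterateFrobenius K 2 j) (by
      rw [iterateFrobenius_def, map_pow]
      exact Ideal.mem_span_singleton_self _) r
    rw [hr, map_zero, sub_zero] at h
    exact Ideal.mem_span_singleton.mp h
  σ := rh (RingHom.id K) (frobenius K 2)
  σα := fun a => by rw [rh_li, RingHom.id_apply]
  σβ := fun b => by rw [rh_ri, frobenius_def]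
  σker := fun r hr => by
    have h := red_right hs (Ideal.span {li s ^ 2 - ri s}) (frobenius K 2) (by
      rw [frobenius_def, map_pow]
      have e : ri s - li s ^ 2 = -1 * (li s ^ 2 - ri s) := by ring
      rw [e]
      exact Ideal.mul_mem_left _ _ (Ideal.mem_span_singleton_self _)) r
    rw [hr, map_zero, sub_zero] at h
    exact Ideal.mem_span_singleton.mp h

variable {A : Type} [AddCommGroup A]

/-- Balancedness over the squares. -/
theorem bal {s : K} (hs : Gen s) (L : K →+ K →+ A) (hE : ∀ v : K, v ≠ 0 → L v⁻¹ v = 0) (n : ℕ)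
    (hT : ∀ c r : K, r ≠ 0 →
      ell L ((c ⊗ₜ r) * ∏ i ∈ range n, (li s ^ 2 - ri s ^ 2 ^ i)) = 0) (k a b : K) :
    L (k ^ 2 * a) b = L a (k ^ 2 * b) := by
  have hgen : GenBy s := hs.gen
  have hT' : ∀ x : K ⊗[ℤ] K, ell L (x * ∏ i ∈ range n, (li s ^ 2 - ri s ^ 2 ^ i)) = 0 := by
    intro x
    induction x using TensorProduct.induction_on with
    | zero => rw [zero_mul, map_zero]
    | tmul c r =>
      by_cases hr : r = 0
      · rw [hr, TensorProduct.tmul_zero, zero_mul, map_zero]
      · exact hT c r hr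
    | add x y hx hy => rw [add_mul, map_add, hx, hy, add_zero]
  have h1 : ∀ r : K ⊗[ℤ] K, ell L ((li s ^ 2 - ri s ^ 2) * r) = 0 := by
    intro r
    have h := crt (res hgen) hs (N := (ell L).ker) (fun v hv => by
        rw [AddMonoidHom.mem_ker, th, li_mul_ri, ell_tmul]
        exact hE v hv) n (fun r => by
        rw [AddMonoidHom.mem_ker, mul_comm]
        exact hT' r) r
    rw [AddMonoidHom.mem_ker, dl, pow_one] at h
    exact h
  have h2 := cong_hom hgen (Kill (ell L)) (li.comp (frobenius K 2)) (ri.comp (frobenius K 2)) (by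
    rw [RingHom.comp_apply, RingHom.comp_apply, frobenius_def, map_pow, map_pow]
    exact h1) k
  rw [RingHom.comp_apply, RingHom.comp_apply, frobenius_def] at h2
  have h3 := h2 (a ⊗ₜ b)
  have e : (li (k ^ 2) - ri (k ^ 2)) * (a ⊗ₜ[ℤ] b) =
      (k ^ 2 * a) ⊗ₜ[ℤ] b - a ⊗ₜ[ℤ] (k ^ 2 * b) := by
    rw [sub_mul, li_apply, ri_apply, Algebra.TensorProduct.tmul_mul_tmul,
      Algebra.TensorProduct.tmul_mul_tmul, one_mul, one_mul]
  rw [e, map_sub, ell_tmul, ell_tmul, sub_eq_zero] at h3
  exact h3

end Pool.Agent.HuaBd96
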