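import Mathlib
import Pool.Agent.HuaBd96.Red

/-!
The powers with exponent `2 ^ a - 1` span the field, and the ring spanned by the `v⁻¹ ⊗ v` is
everything modulo `s ^ 2 ⊗ 1 - 1 ⊗ s ^ (2 q)`.
-/

set_option autoImplicit false

open scoped TensorProduct

namespace Pool.Agent.HuaBd96

variable {K : Type} [Field K]

/-- The additive span of the `m`-th powers. -/
def PSa (K : Type) [Field K] (m : ℕ) : AddSubgroup K :=
  AddSubgroup.closure (Set.range (fun w : K => w ^ m))

theorem PSa_mul {m : ℕ} {a b : K} (ha : a ∈ PSa K m) (hb : b ∈ PSa K m) : a * b ∈ PSa K m := by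
  induction ha using AddSubgroup.closure_induction with
  | mem x hx =>
    induction hb using AddSubgroup.closure_induction with
    | mem y hy =>
      obtain ⟨v, rfl⟩ := hx
      obtain ⟨w, rfl⟩ := hy
      exact AddSubgroup.subset_closure ⟨v * w, mul_pow v w m⟩
    | zero => rw [mul_zero]; exact (PSa K m).zero_mem
    | add y z _ _ hy hz => rw [mul_add]; exact (PSa K m).add_mem hy hz
    | neg y _ hy => rw [mul_neg]; exact (PSa K m).neg_mem hy
  | zero => rw [zero_mul]; exact (PSa K m).zero_mem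
  | add y z _ _ hy hz => rw [add_mul]; exact (PSa K m).add_mem hy hz
  | neg y _ hy => rw [neg_mul]; exact (PSa K m).neg_mem hy

theorem PSa_pow_mem {m : ℕ} (w : K) : w ^ m ∈ PSa K m := AddSubgroup.subset_closure ⟨w, rfl⟩

theorem PSa_one {m : ℕ} : (1 : K) ∈ PSa K m := by
  have := PSa_pow_mem (m := m) (1 : K)
  rwa [one_pow] at this

theorem PSa_npow {m : ℕ} {a : K} (ha : a ∈ PSa K m) (n : ℕ) : a ^ n ∈ PSa K m := by
  induction n with
  | zero => rw [pow_zero]; exact PSa_one
  | succ n ih => rw [pow_succ]; exact PSa_mul ih ha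

/-- The span is a subfield. -/
def PSf (K : Type) [Field K] (m : ℕ) (hm : 1 ≤ m) : Subfield K where
  carrier := PSa K m
  mul_mem' := fun {_ _} ha hb => PSa_mul ha hb
  one_mem' := PSa_one
  add_mem' := fun {_ _} ha hb => (PSa K m).add_mem ha hb
  zero_mem' := (PSa K m).zero_mem
  neg_mem' := fun {_} ha => (PSa K m).neg_mem ha
  inv_mem' := fun a ha => by
    by_cases h0 : a = 0
    · subst h0; rw [inv_zero]; exact (PSa K m).zero_mem
    have e : a⁻¹ = a ^ (m - 1) * (a⁻¹) ^ m := by
      have h1 : a ^ (m - 1) * (a⁻¹) ^ (m - 1 + 1) = a⁻¹ := by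
        rw [pow_succ, ← mul_assoc, ← mul_pow, mul_inv_cancel₀ h0, one_pow, one_mul]
      rw [Nat.sub_add_cancel hm] at h1
      exact h1.symm
    change a⁻¹ ∈ PSa K m
    rw [e]
    exact PSa_mul (PSa_npow ha _) (PSa_pow_mem _)

/-- The odd powers span the field. -/
theorem PSa_top [CharP K 2] {s : K} (hroot : ∀ i j : ℕ, s ^ i = s ^ j → i = j) {m : ℕ}
    (hodd : Odd m) (x : K) : x ∈ PSa K m := by
  have hm : 1 ≤ m := hodd.pos
  set F := PSf K m hm with hF
  change x ∈ F
  by_contra hx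
  -- a linear functional
  have hx' : x ∉ Submodule.span F ({1} : Set K) := by
    intro h
    obtain ⟨c, hc⟩ := Submodule.mem_span_singleton.mp h
    apply hx
    rw [← hc, Algebra.smul_def, mul_one]
    exact c.2
  obtain ⟨φ, hφx, hφ⟩ := Submodule.exists_dual_map_eq_bot_of_notMem hx' inferInstance
  have hφ1 : φ 1 = 0 := by
    have : φ 1 ∈ Submodule.map φ (Submodule.span F ({1} : Set K)) :=
      Submodule.mem_map_of_mem (Submodule.mem_span_singleton_self 1)
    rw [hφ] at this
    simpa using this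
  have hφF : ∀ c : F, φ (c : K) = 0 := by
    intro c
    have e : (c : K) = c • (1 : K) := by rw [Algebra.smul_def, mul_one]; rfl
    rw [e, map_smul, hφ1, smul_zero]
  -- the polynomial
  set P : Polynomial F := ∑ j ∈ Finset.range (m + 1),
    Polynomial.C (φ ((m.choose j : K) * x ^ (m - j))) * Polynomial.X ^ j with hP
  have hPe : ∀ c : F, P.eval c = 0 := by
    intro c
    have h1 : φ (((c : K) + x) ^ m) = 0 := by
      have : ((c : K) + x) ^ m ∈ F := PSa_pow_mem _
      exact hφF ⟨_, this⟩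
    rw [add_pow, map_sum] at h1
    rw [hP, Polynomial.eval_finset_sum, ← h1]
    apply Finset.sum_congr rfl
    intro j _
    rw [Polynomial.eval_mul, Polynomial.eval_C, Polynomial.eval_pow, Polynomial.eval_X]
    have e : (c : K) ^ j * x ^ (m - j) * (m.choose j : K) =
        (c ^ j : F) • ((m.choose j : K) * x ^ (m - j)) := by
      rw [Algebra.smul_def]
      change _ = ((c ^ j : F) : K) * _
      push_cast
      ring
    rw [e, map_smul, smul_eq_mul, mul_comm]
  have hinf : Infinite F := by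
    have hsm : s ^ m ∈ F := PSa_pow_mem _
    refine Infinite.of_injective (fun i : ℕ => (⟨s ^ m, hsm⟩ : F) ^ i) ?_
    intro i j hij
    have h1 := congrArg (fun z : F => (z : K)) hij
    simp only [SubmonoidClass.coe_pow] at h1
    rw [← pow_mul, ← pow_mul] at h1
    have h2 := hroot _ _ h1
    exact Nat.eq_of_mul_eq_mul_left hm h2
  have hP0 : P = 0 := Polynomial.funext (fun c => by rw [hPe, Polynomial.eval_zero])
  have hc : P.coeff (m - 1) = φ x := by
    rw [hP, Polynomial.finset_sum_coeff]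
    rw [Finset.sum_eq_single (m - 1)]
    · rw [Polynomial.coeff_C_mul, Polynomial.coeff_X_pow, if_pos rfl, mul_one]
      have e1 : m.choose (m - 1) = m := (Nat.choose_symm hm).trans (Nat.choose_one_right m)
      have e2 : m - (m - 1) = 1 := by omega
      have e3 : ((m : ℕ) : K) = 1 := by
        obtain ⟨k, hk⟩ := hodd
        rw [hk]
        push_cast
        rw [CharTwo.two_eq_zero, zero_mul, zero_add]
      rw [e1, e2, pow_one, e3, one_mul]
    · intro j _ hj
      rw [Polynomial.coeff_C_mul, Polynomial.coeff_X_pow, if_neg (fun h => hj h.symm), mul_zero]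
    · intro h
      exact absurd (Finset.mem_range.mpr (by omega)) h
  rw [hP0, Polynomial.coeff_zero] at hc
  exact hφx hc.symm

/-- Every element is `a ^ 2 + b ^ 2 * s`. -/
theorem sq_decomp [CharP K 2] {s : K} (hs : GenBy s) (x : K) : ∃ a b : K, x = a ^ 2 + b ^ 2 * s := by
  let F : Subfield K :=
    { carrier := {x | ∃ a b : K, x = a ^ 2 + b ^ 2 * s}
      mul_mem' := by
        rintro _ _ ⟨a, b, rfl⟩ ⟨c, d, rfl⟩
        refine ⟨a * c + b * d * s, a * d + b * c, ?_⟩
        rw [CharTwo.add_sq, CharTwo.add_sq]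
        ring
      one_mem' := ⟨1, 0, by ring⟩
      add_mem' := by
        rintro _ _ ⟨a, b, rfl⟩ ⟨c, d, rfl⟩
        refine ⟨a + c, b + d, ?_⟩
        rw [CharTwo.add_sq, CharTwo.add_sq]
        ring
      zero_mem' := ⟨0, 0, by ring⟩
      neg_mem' := by
        rintro _ ⟨a, b, rfl⟩
        exact ⟨a, b, by rw [CharTwo.neg_eq]⟩
      inv_mem' := by
        rintro _ ⟨a, b, rfl⟩
        by_cases h0 : a ^ 2 + b ^ 2 * s = 0
        · exact ⟨0, 0, by rw [h0]; simp⟩
        · refine ⟨a * (a ^ 2 + b ^ 2 * s)⁻¹, b * (a ^ 2 + b ^ 2 * s)⁻¹, ?_⟩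
          rw [mul_pow, mul_pow]
          field_simp }
  have h1 : F = ⊤ := hs F ⟨0, 1, by ring⟩
  have h2 : x ∈ F := by rw [h1]; trivial
  exact h2

/-- The factor `P_N`. -/
noncomputable def PN (s : K) (N : ℕ) : K ⊗[ℤ] K := li (s ^ 2) - ri (s ^ 2 ^ N)

/-- The elements which are in the ring `SS` modulo `P_N`. -/
noncomputable def EE (s : K) (N : ℕ) : Subring (K ⊗[ℤ] K) where
  carrier := {x | ∃ b ∈ SS K, ∃ w, x = b + PN s N * w}
  mul_mem' := by
    rintro _ _ ⟨b, hb, w, rfl⟩ ⟨b', hb', w', rfl⟩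
    exact ⟨b * b', (SS K).mul_mem hb hb', w * b' + b * w' + PN s N * w * w', by ring⟩
  one_mem' := ⟨1, (SS K).one_mem, 0, by ring⟩
  add_mem' := by
    rintro _ _ ⟨b, hb, w, rfl⟩ ⟨b', hb', w', rfl⟩
    exact ⟨b + b', (SS K).add_mem hb hb', w + w', by ring⟩
  zero_mem' := ⟨0, (SS K).zero_mem, 0, by ring⟩
  neg_mem' := by
    rintro _ ⟨b, hb, w, rfl⟩
    exact ⟨-b, (SS K).neg_mem hb, -w, by ring⟩

theorem mem_EE {s : K} {N : ℕ} {x : K ⊗[ℤ] K} :
    x ∈ EE s N ↔ ∃ b ∈ SS K, ∃ w, x = b + PN s N * w := Iff.rfl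

theorem SS_le_EE {s : K} {N : ℕ} {x : K ⊗[ℤ] K} (hx : x ∈ SS K) : x ∈ EE s N :=
  mem_EE.mpr ⟨x, hx, 0, by ring⟩

theorem EE_cong {s : K} {N : ℕ} {x y : K ⊗[ℤ] K} (hx : x ∈ EE s N)
    (h : y - x ∈ Ideal.span {PN s N}) : y ∈ EE s N := by
  obtain ⟨b, hb, w, rfl⟩ := mem_EE.mp hx
  obtain ⟨z, hz⟩ := Ideal.mem_span_singleton.mp h
  exact mem_EE.mpr ⟨b, hb, w + z, by rw [mul_add, ← hz]; ring⟩

/-- All elements are in the ring modulo `P_N`, `N ≥ 2`. -/
theorem EE_top [CharP K 2] {s : K} (hs : GenBy s) (hroot : ∀ i j : ℕ, s ^ i = s ^ j → i = j)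
    {N : ℕ} (hN : 2 ≤ N) (x : K ⊗[ℤ] K) : x ∈ EE s N := by
  have hs0 : s ≠ 0 := by
    rintro rfl
    have := hroot 1 2 (by simp)
    omega
  have hs1 : s + 1 ≠ 0 := by
    intro h
    have h1 : s = 1 := by
      rw [← CharTwo.sub_eq_add, sub_eq_zero] at h
      exact h
    have := hroot 0 1 (by rw [h1, one_pow, one_pow])
    omega
  set q := 2 ^ (N - 1) with hq
  have hq2 : 2 ≤ q := by
    calc 2 = 2 ^ 1 := by norm_num
      _ ≤ 2 ^ (N - 1) := Nat.pow_le_pow_right (by norm_num) (by omega)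
  have hqq : 2 ^ N = 2 * q := by
    rw [hq, ← pow_succ']
    congr 1
    omega
  have hqeven : ∃ r, q = 2 * r := ⟨2 ^ (N - 2), by rw [hq, ← pow_succ']; congr 1; omega⟩
  -- squares on the left
  have hsqc : ∀ a : K, li (a ^ 2) - ri (a ^ 2 ^ N) ∈ Ideal.span {PN s N} := by
    intro a
    have h1 := cong_hom hs (Ideal.span {PN s N}) (li.comp (frobenius K 2))
      (ri.comp (iterateFrobenius K 2 N)) (by
        rw [RingHom.comp_apply, RingHom.comp_apply, frobenius_def, iterateFrobenius_def]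
        exact Ideal.mem_span_singleton_self _) a
    rwa [RingHom.comp_apply, RingHom.comp_apply, frobenius_def, iterateFrobenius_def] at h1
  -- step 1
  have hpow : ∀ w : K, ri ((w ^ (q - 1)) ^ 2) ∈ EE s N := by
    intro w
    by_cases hw : w = 0
    · subst hw
      rw [zero_pow (by omega), zero_pow two_ne_zero, map_zero]
      exact (EE s N).zero_mem
    have h1 : li (w ^ 2) * ri ((w ^ 2)⁻¹) ∈ EE s N := by
      rw [li_mul_ri]
      have := SS_le_EE (s := s) (N := N) (mem_SS (inv_ne_zero (pow_ne_zero 2 hw)))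
      rwa [inv_inv] at this
    refine EE_cong h1 ?_
    have h2 := hsqc w
    have e : ri ((w ^ (q - 1)) ^ 2) - li (w ^ 2) * ri ((w ^ 2)⁻¹) =
        -(ri ((w ^ 2)⁻¹)) * (li (w ^ 2) - ri (w ^ 2 ^ N)) := by
      have e1 : (w ^ (q - 1)) ^ 2 = (w ^ 2)⁻¹ * w ^ 2 ^ N := by
        have e2 : w ^ 2 ^ N = w ^ 2 * (w ^ (q - 1)) ^ 2 := by
          rw [hqq, ← pow_mul, ← pow_add]
          congr 1
          omega
        rw [e2]
        field_simp
      rw [e1, map_mul]
      ring
    rw [e]
    exact Ideal.mul_mem_left _ _ h2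
  have hsq : ∀ c : K, ri (c ^ 2) ∈ EE s N := by
    intro c
    have hodd : Odd (q - 1) := by
      obtain ⟨r, hr⟩ := hqeven
      exact ⟨r - 1, by omega⟩
    have h1 := PSa_top hroot hodd c
    induction h1 using AddSubgroup.closure_induction with
    | mem y hy =>
      obtain ⟨w, rfl⟩ := hy
      exact hpow w
    | zero => rw [zero_pow two_ne_zero, map_zero]; exact (EE s N).zero_mem
    | add y z _ _ hy hz => rw [CharTwo.add_sq, map_add]; exact (EE s N).add_mem hy hz
    | neg y _ hy => rw [CharTwo.neg_eq]; exact hy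
  have hlsq : ∀ c : K, li (c ^ 2) ∈ EE s N := by
    intro c
    refine EE_cong ?_ (hsqc c)
    have e : c ^ 2 ^ N = (c ^ q) ^ 2 := by rw [hqq, ← pow_mul]; congr 1; omega
    rw [e]
    exact hsq _
  -- step 2
  have hvv : ∀ v : K, v ≠ 0 → li v * ri v ∈ EE s N := by
    intro v hv
    have h1 := (EE s N).mul_mem (hlsq v) (SS_le_EE (s := s) (N := N) (mem_SS hv))
    rw [← li_mul_ri, ← mul_assoc, ← map_mul] at h1
    have e : v ^ 2 * v⁻¹ = v := by field_simp
    rwa [e] at h1
  have hsum : li s + ri s ∈ EE s N := by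
    have h1 := (EE s N).sub_mem ((EE s N).sub_mem (hvv _ hs1) (hvv _ hs0)) (EE s N).one_mem
    have e : li (s + 1) * ri (s + 1) - li s * ri s - 1 = li s + ri s := by
      rw [map_add, map_add, map_one, map_one]
      ring
    rwa [e] at h1
  -- step 3
  set u := li s + ri (s ^ q) with hu
  have hsq' : ri (s ^ q) ∈ EE s N := by
    obtain ⟨r, hr⟩ := hqeven
    have e : s ^ q = (s ^ r) ^ 2 := by rw [hr, ← pow_mul]; congr 1; omega
    rw [e]
    exact hsq _
  have hu2 : u ^ 2 = PN s N := by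
    rw [hu, CharTwo.add_sq, ← map_pow, ← map_pow]
    unfold PN
    rw [hqq, CharTwo.sub_eq_add, ← pow_mul, mul_comm q 2]
  have ha : u + ri s ∈ EE s N := by
    have h1 := (EE s N).add_mem hsum hsq'
    have e : li s + ri s + ri (s ^ q) = u + ri s := by rw [hu]; ring
    rwa [e] at h1
  have hb : u * ri (s + s ^ q) ∈ EE s N := by
    have h1 := (EE s N).add_mem (hvv s hs0) ((EE s N).mul_mem ha hsq')
    have e : li s * ri s + (u + ri s) * ri (s ^ q) = u * ri (s + s ^ q) := by
      have e1 : li s = u + ri (s ^ q) := by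
        rw [hu, add_assoc, CharTwo.add_self_eq_zero, add_zero]
      rw [e1, map_add]
      have e2 : (u + ri (s ^ q)) * ri s + (u + ri s) * ri (s ^ q) =
          u * (ri s + ri (s ^ q)) + (ri s * ri (s ^ q) + ri s * ri (s ^ q)) := by ring
      rw [e2, CharTwo.add_self_eq_zero, add_zero]
    rwa [e] at h1
  have hc : u * ri (s * (s + s ^ q)) ∈ EE s N := by
    have h1 := (EE s N).mul_mem hb ha
    refine EE_cong h1 ?_
    have e : u * ri (s * (s + s ^ q)) - u * ri (s + s ^ q) * (u + ri s) =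
        -(ri (s + s ^ q)) * PN s N := by
      rw [← hu2, map_mul]
      ring
    rw [e]
    exact Ideal.mul_mem_left _ _ (Ideal.mem_span_singleton_self _)
  have hne : s + s ^ q ≠ 0 := by
    intro h
    rw [← CharTwo.sub_eq_add, sub_eq_zero] at h
    have := hroot 1 q (by rw [pow_one]; exact h)
    omega
  have huK : ∀ c : K, u * ri c ∈ EE s N := by
    intro c
    obtain ⟨a, b, hab⟩ := sq_decomp hs (c / (s + s ^ q))
    have h1 := (EE s N).add_mem ((EE s N).mul_mem (hsq a) hb) ((EE s N).mul_mem (hsq b) hc)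
    have e : ri (a ^ 2) * (u * ri (s + s ^ q)) + ri (b ^ 2) * (u * ri (s * (s + s ^ q))) =
        u * ri c := by
      have e1 : c = (a ^ 2 + b ^ 2 * s) * (s + s ^ q) := by
        rw [← hab]; field_simp
      rw [e1]
      simp only [map_mul, map_add]
      ring
    rwa [e] at h1
  have huE : u ∈ EE s N := by
    have := huK 1
    rwa [map_one, mul_one] at this
  have hrs : ri s ∈ EE s N := by
    have h1 := (EE s N).sub_mem ha huE
    have e : u + ri s - u = ri s := by ring
    rwa [e] at h1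
  have hr : ∀ c : K, ri c ∈ EE s N := by
    intro c
    obtain ⟨a, b, hab⟩ := sq_decomp hs c
    rw [hab, map_add, map_mul]
    exact (EE s N).add_mem (hsq a) ((EE s N).mul_mem (hsq b) hrs)
  have hls : li s ∈ EE s N := by
    have h1 := (EE s N).add_mem huE hsq'
    have e : u + ri (s ^ q) = li s := by
      rw [hu, add_assoc, CharTwo.add_self_eq_zero, add_zero]
    rwa [e] at h1
  have hl : ∀ c : K, li c ∈ EE s N := by
    intro c
    obtain ⟨a, b, hab⟩ := sq_decomp hs c
    rw [hab, map_add, map_mul]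
    exact (EE s N).add_mem (hlsq a) ((EE s N).mul_mem (hlsq b) hls)
  induction x using TensorProduct.induction_on with
  | zero => exact (EE s N).zero_mem
  | tmul a b => rw [← li_mul_ri]; exact (EE s N).mul_mem (hl a) (hr b)
  | add x y hx hy => exact (EE s N).add_mem hx hy

end Pool.Agent.HuaBd96
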